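import Pool.Agent.H74.TSD.Targets

/-!
# Board TSD, module PB: perturbation of the identity
-/

set_option autoImplicit false

open MeasureTheory Set Metric Filter
open scoped ENNReal Pointwise Topology

namespace Pool.Agent.H35.TSD

open Pool.Agent.H74.TSD Pool.Agent.H73.TS

/-- The convex hull of a compact set is compact (copied from Pool.Agent.H25.Star.HullCompact). -/
theorem hullCompact {X : Type*} [NormedAddCommGroup X] [NormedSpace ℝ X] [FiniteDimensional ℝ X]
    {C : Set X} (hC : IsCompact C) : IsCompact (convexHull ℝ C) := by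
  rcases C.eq_empty_or_nonempty with rfl | ⟨c₀, hc₀⟩
  · rw [convexHull_empty]; exact isCompact_empty
  set N := Module.finrank ℝ X + 1 with hN
  set K : Set ((Fin N → ℝ) × (Fin N → X)) :=
    stdSimplex ℝ (Fin N) ×ˢ (Set.pi univ fun _ => C) with hK
  have hKc : IsCompact K := (isCompact_stdSimplex ℝ (Fin N)).prod (isCompact_univ_pi fun _ => hC)
  have hcont : Continuous fun p : (Fin N → ℝ) × (Fin N → X) => ∑ j, p.1 j • p.2 j := by
    fun_prop
  have himg : convexHull ℝ C = (fun p : (Fin N → ℝ) × (Fin N → X) => ∑ j, p.1 j • p.2 j) '' K := by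
    apply Subset.antisymm
    · intro x hx
      obtain ⟨ι, hι, z, w, hz, haff, hw, hsum, hx⟩ := eq_pos_convex_span_of_mem_convexHull hx
      have hcard : Fintype.card ι ≤ Fintype.card (Fin N) := by
        rw [Fintype.card_fin, hN]
        refine haff.card_le_finrank_succ.trans ?_
        gcongr
        exact Submodule.finrank_le _
      obtain ⟨e⟩ := Function.Embedding.nonempty_of_card_le hcard
      refine ⟨(Function.extend e w 0, Function.extend e z fun _ => c₀), ⟨⟨?_, ?_⟩, ?_⟩, ?_⟩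
      · intro j
        dsimp only
        by_cases hj : ∃ i, e i = j
        · obtain ⟨i, rfl⟩ := hj
          rw [e.injective.extend_apply]
          exact (hw i).le
        · rw [Function.extend_apply' _ _ _ hj]
          exact le_rfl
      · rw [← hsum]
        refine (Fintype.sum_of_injective e e.injective w _ ?_ ?_).symm
        · intro j hj
          dsimp only
          rw [Function.extend_apply' _ _ _ (fun ⟨i, hi⟩ => hj ⟨i, hi⟩)]
          rfl
        · intro i
          dsimp only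
          rw [e.injective.extend_apply]
      · intro j _
        dsimp only
        by_cases hj : ∃ i, e i = j
        · obtain ⟨i, rfl⟩ := hj
          rw [e.injective.extend_apply]
          exact hz ⟨i, rfl⟩
        · rw [Function.extend_apply' _ _ _ hj]
          exact hc₀
      · rw [← hx]
        refine (Fintype.sum_of_injective e e.injective (fun i => w i • z i) _ ?_ ?_).symm
        · intro j hj
          have h0 : Function.extend e w 0 j = 0 := by
            rw [Function.extend_apply' _ _ _ (fun ⟨i, hi⟩ => hj ⟨i, hi⟩)]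
            rfl
          simp only [h0, zero_smul]
        · intro i
          simp only [e.injective.extend_apply]
    · rintro x ⟨⟨w, z⟩, ⟨hw, hz⟩, rfl⟩
      refine (convex_convexHull ℝ C).sum_mem (fun j _ => hw.1 j) hw.2 (fun j _ => ?_)
      exact subset_convexHull ℝ C (hz j (mem_univ j))
  rw [himg]
  exact hKc.image hcont

/-- The symmetric matrix of a functional. -/
noncomputable def mt (l : Fin 5 → ℝ) (s : ℝ) : Matrix (Fin 3) (Fin 3) ℝ :=
  !![l 0 - s, l 2 / 2, l 3 / 2; l 2 / 2, l 1 - s, l 4 / 2; l 3 / 2, l 4 / 2, -s]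

lemma mt_apply (l : Fin 5 → ℝ) (s : ℝ) (a : E 3) (i : Fin 3) :
    (Matrix.toLpLin 2 2 (mt l s) a) i = ∑ j, mt l s i j * a j := by
  simp [Matrix.toLpLin_apply, Matrix.mulVec, dotProduct]

lemma mt_inner (l : Fin 5 → ℝ) (s : ℝ) (a : E 3) :
    inner ℝ a (Matrix.toLpLin 2 2 (mt l s) a) = ∑ k, qd a k * l k - s * ‖a‖ ^ 2 := by
  rw [PiLp.inner_apply, EuclideanSpace.norm_sq_eq]
  simp only [mt_apply]
  simp [Fin.sum_univ_three, Fin.sum_univ_five, mt, qd]
  ring

lemma det_mt (l : Fin 5 → ℝ) (s : ℝ) : ∃ c₂ c₃ : ℝ, ∀ ε : ℝ,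
    LinearMap.det (LinearMap.id + ε • Matrix.toLpLin 2 2 (mt l s)) =
      1 + ε * ((l 0 + l 1 - 3 * s) + ε * c₂ + ε ^ 2 * c₃) := by
  refine ⟨(l 0 - s) * (l 1 - s) + (l 0 - s) * (-s) + (l 1 - s) * (-s) - (l 2 / 2) ^ 2 -
    (l 3 / 2) ^ 2 - (l 4 / 2) ^ 2, (mt l s).det, fun ε => ?_⟩
  have h1 : LinearMap.id + ε • Matrix.toLpLin 2 2 (mt l s) =
      Matrix.toLpLin 2 2 ((1 : Matrix (Fin 3) (Fin 3) ℝ) + ε • mt l s) := by
    rw [map_add, map_smul, Matrix.toLpLin_one]
  rw [h1, Matrix.toLpLin_eq_toLin, LinearMap.det_toLin, Matrix.det_fin_three, Matrix.det_fin_three]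
  simp [mt]
  ring

theorem pf_PB : T_PB := by
  intro N hNc hN hNh hG
  by_contra hz
  set X : Set (E 3) := {a : E 3 | ‖a‖ = 1 ∧ N a = 1} with hX
  have hqd : Continuous qd := by
    unfold qd
    fun_prop
  have hXc : IsCompact X := by
    refine (isCompact_sphere (0 : E 3) 1).of_isClosed_subset ?_ ?_
    · exact (isClosed_eq continuous_norm continuous_const).inter
        (isClosed_eq hNc continuous_const)
    · intro a ha
      rw [mem_sphere_zero_iff_norm]
      exact ha.1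
  have hCc : IsCompact (convexHull ℝ (qd '' X)) := hullCompact (hXc.image hqd)
  obtain ⟨ℓ, s, hℓ1, hℓ2⟩ := geometric_hahn_banach_closed_point (convex_convexHull ℝ (qd '' X))
    hCc.isClosed hz
  set l : Fin 5 → ℝ := fun k => ℓ (fun j => if k = j then 1 else 0) with hl
  have hℓ : ∀ y : Fin 5 → ℝ, ℓ y = ∑ k, y k * l k := by
    intro y
    have := LinearMap.pi_apply_eq_sum_univ (ℓ : (Fin 5 → ℝ) →ₗ[ℝ] ℝ) y
    simpa [hl] using this
  have htr : 0 < l 0 + l 1 - 3 * s := by
    rw [hℓ] at hℓ2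
    simp [Fin.sum_univ_five] at hℓ2
    linarith
  set H : E 3 →L[ℝ] E 3 := LinearMap.toContinuousLinearMap (Matrix.toLpLin 2 2 (mt l s)) with hH
  have hHin : ∀ a : E 3, inner ℝ a (H a) = ℓ (qd a) - s * ‖a‖ ^ 2 := by
    intro a
    rw [hℓ]
    exact mt_inner l s a
  -- the function F
  set F : E 3 → ℝ := fun a => max (-(inner ℝ a (H a))) (N a - 1) with hF
  have hFc : Continuous F := by
    have : Continuous fun a : E 3 => (inner ℝ a (H a) : ℝ) := continuous_id.inner H.continuous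
    exact this.neg.max (hNc.sub continuous_const)
  have hSne : (sphere (0 : E 3) 1).Nonempty := NormedSpace.sphere_nonempty.mpr zero_le_one
  obtain ⟨a₀, ha₀, hmin⟩ := (isCompact_sphere (0 : E 3) 1).exists_isMinOn hSne hFc.continuousOn
  have hpos : ∀ a : E 3, ‖a‖ = 1 → 0 < F a := by
    intro a ha
    by_cases h1 : N a = 1
    · have h2 : ℓ (qd a) < s := hℓ1 _ (subset_convexHull ℝ _ ⟨a, ⟨ha, h1⟩, rfl⟩)
      refine lt_of_lt_of_le ?_ (le_max_left _ _)
      rw [hHin, ha]
      linarith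
    · have h2 : 1 < N a := lt_of_le_of_ne (ha ▸ hN a) (Ne.symm h1)
      exact lt_of_lt_of_le (by linarith) (le_max_right _ _)
  set μ := F a₀ with hμ
  have hμ0 : 0 < μ := hpos a₀ (by rwa [mem_sphere_zero_iff_norm] at ha₀)
  have hFμ : ∀ a : E 3, ‖a‖ = 1 → μ ≤ F a := by
    intro a ha
    exact hmin (by rw [mem_sphere_zero_iff_norm]; exact ha)
  obtain ⟨c₂, c₃, hdet⟩ := det_mt l s
  -- the choice of ε
  have e1 : ∀ᶠ ε : ℝ in 𝓝[>] 0, ε * ‖H‖ ^ 2 < 2 * μ := by
    have : Tendsto (fun ε : ℝ => ε * ‖H‖ ^ 2) (𝓝[>] 0) (𝓝 (0 * ‖H‖ ^ 2)) :=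
      ((continuous_id.mul continuous_const).tendsto 0).mono_left nhdsWithin_le_nhds
    rw [zero_mul] at this
    exact this.eventually_lt_const (by linarith)
  have e2 : ∀ᶠ ε : ℝ in 𝓝[>] 0, ε * ‖H‖ < μ := by
    have : Tendsto (fun ε : ℝ => ε * ‖H‖) (𝓝[>] 0) (𝓝 (0 * ‖H‖)) :=
      ((continuous_id.mul continuous_const).tendsto 0).mono_left nhdsWithin_le_nhds
    rw [zero_mul] at this
    exact this.eventually_lt_const hμ0
  have e3 : ∀ᶠ ε : ℝ in 𝓝[>] 0, 0 < (l 0 + l 1 - 3 * s) + ε * c₂ + ε ^ 2 * c₃ := by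
    have : Tendsto (fun ε : ℝ => (l 0 + l 1 - 3 * s) + ε * c₂ + ε ^ 2 * c₃) (𝓝[>] 0)
        (𝓝 ((l 0 + l 1 - 3 * s) + 0 * c₂ + 0 ^ 2 * c₃)) := by
      have hc : Continuous (fun ε : ℝ => (l 0 + l 1 - 3 * s) + ε * c₂ + ε ^ 2 * c₃) := by
        fun_prop
      exact (hc.tendsto 0).mono_left nhdsWithin_le_nhds
    exact this.eventually_const_lt (by simpa using htr)
  obtain ⟨ε, ⟨⟨he1, he2⟩, he3⟩, he0⟩ :=
    (((e1.and e2).and e3).and self_mem_nhdsWithin).exists
  have hε : 0 < ε := he0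
  set G : E 3 →L[ℝ] E 3 := ContinuousLinearMap.id ℝ (E 3) + ε • H with hGdef
  have hGa : ∀ a, G a = a + ε • H a := fun a => by simp [hGdef]
  have hunit : ∀ a : E 3, ‖a‖ = 1 → ‖G a‖ ≤ N a := by
    intro a ha
    have hHa : ‖H a‖ ≤ ‖H‖ := by
      have := H.le_opNorm a
      rwa [ha, mul_one] at this
    rcases le_max_iff.mp (hFμ a ha) with h | h
    · have h1 : ‖G a‖ ^ 2 ≤ 1 := by
        rw [hGa, norm_add_sq_real, inner_smul_right, norm_smul, Real.norm_of_nonneg hε.le, ha]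
        have h2 : ‖H a‖ ^ 2 ≤ ‖H‖ ^ 2 := pow_le_pow_left₀ (norm_nonneg _) hHa 2
        have h3 : ε * ‖H a‖ ^ 2 ≤ 2 * μ := (mul_le_mul_of_nonneg_left h2 hε.le).trans he1.le
        have h4 : ε * (ε * ‖H a‖ ^ 2) ≤ ε * (2 * μ) := mul_le_mul_of_nonneg_left h3 hε.le
        have h5 : ε * inner ℝ a (H a) ≤ ε * (-μ) := mul_le_mul_of_nonneg_left (by linarith) hε.le
        nlinarith
      have h2 : ‖G a‖ ≤ 1 := by
        by_contra hcon
        push Not at hcon
        nlinarith [norm_nonneg (G a)]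
      exact h2.trans (ha ▸ hN a)
    · rw [hGa]
      refine (norm_add_le _ _).trans ?_
      rw [norm_smul, Real.norm_of_nonneg hε.le, ha]
      have : ε * ‖H a‖ ≤ ε * ‖H‖ := mul_le_mul_of_nonneg_left hHa hε.le
      linarith
  have hall : ∀ a : E 3, ‖G a‖ ≤ N a := by
    intro a
    by_cases h0 : a = 0
    · subst h0
      rw [map_zero, norm_zero]
      have := hN 0
      rwa [norm_zero] at this
    · have hn : 0 < ‖a‖ := norm_pos_iff.mpr h0
      have hu : ‖‖a‖⁻¹ • a‖ = 1 := by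
        rw [norm_smul, norm_inv, norm_norm, inv_mul_cancel₀ hn.ne']
      have h1 := hunit _ hu
      rw [hNh, map_smul, norm_smul, Real.norm_eq_abs] at h1
      exact le_of_mul_le_mul_left h1 (abs_pos.mpr (inv_ne_zero hn.ne'))
  have hd := hG G hall
  have hd2 : LinearMap.det (G : E 3 →ₗ[ℝ] E 3) =
      1 + ε * ((l 0 + l 1 - 3 * s) + ε * c₂ + ε ^ 2 * c₃) := by
    rw [← hdet ε]
    congr 1
  rw [hd2] at hd
  have h6 : 0 < ε * ((l 0 + l 1 - 3 * s) + ε * c₂ + ε ^ 2 * c₃) := mul_pos hε he3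
  rw [abs_of_pos (by linarith)] at hd
  linarith

end Pool.Agent.H35.TSD
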